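import Pool.Agent.Run7.h480.BF.Iface

/-! Project BF, piece MAX. -/

set_option autoImplicit false

open Set Module

namespace Run7.h480.BF

/-- **MAX** -/
theorem t_MAX : S_TWO → S_DIMK → S_MAX := by
  intro hT hD E _ M r hM
  have key : ∀ n : ℕ, ∀ x ∈ berg M, (Ini M x).ncard = n →
      ∃ y ∈ berg M, Ini M y ⊆ Ini M x ∧ finrank ℝ (LinK (Ini M y)) = r := by
    intro n
    induction n using Nat.strong_induction_on with
    | _ n ih =>
      intro x hx hn
      rcases (hD E M r hM x hx).lt_or_eq with h | h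
      · obtain ⟨y, hy, hyx, hxy⟩ := hT E M r hM x hx h x hx
        have hss : Ini M y ⊂ Ini M x := ⟨hyx, hxy⟩
        have hlt : (Ini M y).ncard < n := by
          rw [← hn]
          exact Set.ncard_lt_ncard hss (Set.toFinite _)
        obtain ⟨z, hz, hzy, hr⟩ := ih _ hlt y hy rfl
        exact ⟨z, hz, hzy.trans hyx, hr⟩
      · exact ⟨x, hx, Subset.rfl, h⟩
  intro x hx
  exact key _ x hx rfl

end Run7.h480.BF
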