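import Pool.Agent.Run7.h480.BF.Iface
import Pool.Agent.Run7.h480.BF.Rk

/-! Project BF, piece TWO. -/

set_option autoImplicit false

open Set Module

namespace Run7.h480.BF

lemma two_ini_nonempty {E : Type} [Fintype E] (M : Matroid E) (w : E → ℝ) :
    (Ini M w).Nonempty := by
  obtain ⟨B, hB, hmin⟩ := Set.exists_min_image {B : Set E | M.IsBase B} (wt w) (Set.toFinite _)
    M.exists_isBase
  exact ⟨B, hB, fun B' hB' => hmin B' hB'⟩

/-- **TWO** -/
theorem t_TWO : S_BERG → S_MAT → S_LOC → S_LEV → S_TWO := by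
  intro _ hMat hLoc hLev E _ M r hM x hx hdim w _
  by_contra hcon
  push Not at hcon
  obtain ⟨N, hN, hNM⟩ := hMat E M r hM x hx
  have hKx : Ini M w ⊆ Ini M x := hcon x hx Subset.rfl
  obtain ⟨B₀, hB₀⟩ := two_ini_nonempty M w
  have hB₀N : N.IsBase B₀ := (hNM B₀).2 (hKx hB₀)
  -- flats of `N` are tight for `B₀`
  have htight : ∀ F : Set E, N.IsFlat F → (B₀ ∩ F).ncard = rk N F := by
    intro F hF
    have hFN : ne F ∈ berg N := ((hLev E N r hN).1 F).2 hF
    obtain ⟨ε, hε, h⟩ := hLoc E M N r hM hN x hx hNM (ne F)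
    obtain ⟨h1, h2⟩ := h ε hε le_rfl
    have hy : x + ε • ne F ∈ berg M := h2.2 hFN
    have hsub : Ini M (x + ε • ne F) ⊆ Ini M x := by
      rw [h1]
      intro B hB
      exact (hNM B).1 hB.1
    have h3 := hcon _ hy hsub hB₀
    rw [h1] at h3
    obtain ⟨B', hB', hc⟩ := exists_base_inter hN.ground F
    have h4 := h3.2 B' hB'
    rw [wt_ne, wt_ne, hc] at h4
    have h5 : rk N F ≤ (B₀ ∩ F).ncard := by
      have : (rk N F : ℝ) ≤ ((B₀ ∩ F).ncard : ℝ) := by linarith
      exact_mod_cast this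
    exact le_antisymm (inter_le hB₀N F) h5
  set P : E → Set E := fun e => N.closure {e} with hP
  have hrk1 : ∀ e, rk N (P e) = 1 := by
    intro e
    rw [hP]
    simp only
    rw [rk_closure, rk_indep (hN.nonloop e).indep, ncard_singleton]
  have hself : ∀ e, e ∈ P e := fun e =>
    N.mem_closure_of_mem (mem_singleton e) (by rw [hN.ground]; exact subset_univ _)
  have hone : ∀ e, (B₀ ∩ P e).ncard = 1 := fun e => by
    rw [htight (P e) (N.isFlat_closure _), hrk1]
  have hcover : ∀ e, ∃ b ∈ B₀, e ∈ P b := by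
    intro e
    obtain ⟨b, hb⟩ := Set.ncard_eq_one.1 (hone e)
    have hb' : b ∈ B₀ ∩ P e := by rw [hb]; exact mem_singleton b
    exact ⟨b, hb'.1, (hN.nonloop b).mem_closure_singleton hb'.2⟩
  have hle : ∀ B, N.IsBase B → ∀ e, (B ∩ P e).ncard ≤ 1 := fun B hB e => by
    rw [← hrk1 e]; exact inter_le hB _
  classical
  have hB₀card : B₀.toFinset.card = r := by
    rw [← Set.ncard_eq_toFinset_card']; exact hN.rank B₀ hB₀N
  have hbase : ∀ B, N.IsBase B → ∀ b ∈ B₀, (B ∩ P b).ncard = 1 := by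
    intro B hB b hb
    have h1 : B.ncard ≤ ∑ b ∈ B₀.toFinset, (B ∩ P b).ncard := by
      have h2 : B.toFinset ⊆ B₀.toFinset.biUnion (fun b => (B ∩ P b).toFinset) := by
        intro e he
        rw [Set.mem_toFinset] at he
        obtain ⟨b, hb, heb⟩ := hcover e
        rw [Finset.mem_biUnion]
        exact ⟨b, Set.mem_toFinset.2 hb, Set.mem_toFinset.2 ⟨he, heb⟩⟩
      have h3 := (Finset.card_le_card h2).trans Finset.card_biUnion_le
      rw [Set.ncard_eq_toFinset_card']
      refine h3.trans (le_of_eq (Finset.sum_congr rfl fun b _ => ?_))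
      rw [Set.ncard_eq_toFinset_card']
    have h2 : ∑ b ∈ B₀.toFinset, (B ∩ P b).ncard = ∑ b ∈ B₀.toFinset, 1 := by
      apply le_antisymm
      · exact Finset.sum_le_sum fun b _ => hle B hB b
      · rw [Finset.sum_const, smul_eq_mul, mul_one, hB₀card, ← hN.rank B hB]
        exact h1
    exact (Finset.sum_eq_sum_iff_of_le fun b _ => hle B hB b).1 h2 b (Set.mem_toFinset.2 hb)
  have hmem : ∀ b ∈ B₀, ne (P b) ∈ LinK (Ini M x) := by
    intro b hb B hB B' hB'
    rw [wt_ne, wt_ne, hbase B ((hNM B).2 hB) b hb, hbase B' ((hNM B').2 hB') b hb]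
  have hcard : Fintype.card (B₀ : Set E) ≤ finrank ℝ (LinK (Ini M x)) := by
    refine biorth (LinK (Ini M x)) (fun b : B₀ => -ne (P b)) (fun b => (b : E))
      (fun b => Submodule.neg_mem _ (hmem b b.2)) (fun b => ?_) (fun b b' hbb => ?_)
    · have := hself (b : E)
      simp [ne, this]
    · have hnot : (b' : E) ∉ P b := by
        intro hmem'
        obtain ⟨c, hc⟩ := Set.ncard_eq_one.1 (hone (b : E))
        have e1 : (b : E) ∈ B₀ ∩ P b := ⟨b.2, hself _⟩
        have e2 : (b' : E) ∈ B₀ ∩ P b := ⟨b'.2, hmem'⟩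
        rw [hc, mem_singleton_iff] at e1 e2
        exact hbb (Subtype.ext (e1.trans e2.symm))
      simp [ne, hnot]
  have : Fintype.card (B₀ : Set E) = r := by
    rw [← Set.toFinset_card]; exact hB₀card
  omega

end Run7.h480.BF
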