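import Pool.Agent.Run7.h480.BF.Iface

/-! Project BF, piece NONI. -/

set_option autoImplicit false

open Set Module

namespace Run7.h480.BF

lemma noni_smul {E : Type} [Fintype E] {M : Matroid E} {w : E → ℝ} (hw : w ∈ berg M) {m : ℝ}
    (hm : 0 < m) : m • w ∈ berg M := by
  intro C hC
  obtain ⟨e, he, f, hf, hef, h1, h2⟩ := hw C hC
  refine ⟨e, he, f, hf, hef, by simp [h1], fun g hg => ?_⟩
  simp only [Pi.smul_apply, smul_eq_mul]
  exact mul_le_mul_of_nonneg_left (h2 g hg) hm.le

/-- **NONI** -/
theorem t_NONI : S_LEV → S_NONI := by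
  intro hL E _ M r hM v hv
  have key : ∀ C, M.IsCircuit C → ∀ f ∈ C, ∀ g ∈ C, ¬ v f < v g := by
    intro C hC f hf g hg hlt
    have hfg : f ≠ g := fun h => by rw [h] at hlt; exact lt_irrefl _ hlt
    set F := M.closure (C \ {f, g}) with hF
    have hfF : f ∉ F := by
      have h1 : M.Indep (C \ {g}) := hC.sdiff_singleton_indep hg
      have h2 : f ∈ C \ {g} := ⟨hf, by simpa using hfg⟩
      have h3 := h1.notMem_closure_sdiff_of_mem h2
      have h4 : (C \ {g}) \ {f} = C \ {f, g} := by
        ext x; simp only [mem_sdiff, mem_singleton_iff, mem_insert_iff]; tauto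
      rw [h4] at h3
      exact h3
    have hgF : g ∉ F := by
      have h1 : M.Indep (C \ {f}) := hC.sdiff_singleton_indep hf
      have h2 : g ∈ C \ {f} := ⟨hg, by simpa using hfg.symm⟩
      have h3 := h1.notMem_closure_sdiff_of_mem h2
      have h4 : (C \ {f}) \ {g} = C \ {f, g} := by
        ext x; simp only [mem_sdiff, mem_singleton_iff, mem_insert_iff]; tauto
      rw [h4] at h3
      exact h3
    have hflat : M.IsFlat F := M.isFlat_closure _
    have hne : ne F ∈ berg M := ((hL E M r hM).1 F).2 hflat
    set m : ℝ := 1 + 2 * ∑ i, |v i| with hm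
    have hsum : ∀ i, |v i| ≤ ∑ j, |v j| := fun i =>
      Finset.single_le_sum (f := fun j => |v j|) (fun j _ => abs_nonneg _) (Finset.mem_univ i)
    have hm0 : 0 < m := by
      have : 0 ≤ ∑ i, |v i| := Finset.sum_nonneg fun i _ => abs_nonneg _
      rw [hm]; linarith
    have hx := hv _ (noni_smul hne hm0)
    obtain ⟨e, he, e', he', hee, h1, h2⟩ := hx C hC
    have val : ∀ h ∈ C, h ≠ g → (m • ne F + v) h < (m • ne F + v) g := by
      intro h hh hhg
      have hg0 : (m • ne F + v) g = v g := by
        simp [ne, hgF]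
      rw [hg0]
      by_cases hhf : h = f
      · subst hhf
        have : (m • ne F + v) h = v h := by simp [ne, hfF]
        rw [this]; exact hlt
      · have hhF : h ∈ F := by
          have hsub : C \ {f, g} ⊆ M.closure (C \ {f, g}) :=
            M.subset_closure _ (by rw [hM.ground]; exact subset_univ _)
          exact hsub ⟨hh, by simp [hhf, hhg]⟩
        have : (m • ne F + v) h = -m + v h := by simp [ne, hhF]
        rw [this]
        have h3 := hsum h
        have h4 := hsum g
        have h5 := le_abs_self (v h)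
        have h6 := neg_abs_le (v g)
        rw [hm]; linarith
    have heg : e = g := by
      by_contra hne'
      exact absurd (h2 g hg) (not_le.2 (val e he hne'))
    have heg' : e' = g := by
      by_contra hne'
      have := val e' he' hne'
      rw [← h1] at this
      exact absurd (h2 g hg) (not_le.2 this)
    exact hee (heg.trans heg'.symm)
  intro C hC
  obtain ⟨e, he⟩ := hC.nonempty
  have h2 : ∃ f ∈ C, f ≠ e := by
    by_contra hcon
    push Not at hcon
    have hCe : C = {e} := by
      ext x; exact ⟨fun hx => hcon x hx, fun hx => by rw [mem_singleton_iff.1 hx]; exact he⟩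
    rw [hCe] at hC
    exact hC.not_indep (hM.nonloop e).indep
  obtain ⟨f, hf, hfe⟩ := h2
  have hconst : ∀ g ∈ C, v e = v g := fun g hg =>
    le_antisymm (not_lt.1 (key C hC g hg e he)) (not_lt.1 (key C hC e he g hg))
  refine ⟨e, he, f, hf, hfe.symm, ?_, fun g hg => ?_⟩
  · simp [hconst f hf]
  · simp [hconst g hg]

end Run7.h480.BF
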